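import Pool.Agent.helper89.CL.Cover
import Pool.Agent.helper89.CL.Upper

/-!
# Reductions from `p-CLIQUE` to `p-MC(Σ₁)` definable in infinitary logic with counting

A reduction from the `k`-clique problem on graphs with `n` vertices to model checking of
`Σ₁`-sentences which is definable in the infinitary logic with counting and `r` variables puts out a
sentence of length at least `k₀ (k₀ - 1) / (r (r - 1))` for all `k₀ ≤ k` with `k₀ 2^{k₀} + k ≤ n`, and
for `2 ≤ r ≤ k` there is one with length at most `44 k² / r²`. In particular no ept-reduction is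
definable with a bounded number of variables, for example in fixed-point logic with counting.
-/

set_option autoImplicit false

namespace Pool.Agent.Results.MP_2b48c2_lc.CountingLogic

open Pool.Agent.helper89.CL

/-- **Main theorem.** -/
theorem result (n k r : ℕ) :
    (∀ ℓ : ℕ, Nonempty (DefinableReduction n k r ℓ) → ∀ k₀ : ℕ, k₀ ≤ k → k₀ * 2 ^ k₀ + k ≤ n →
      k₀ * (k₀ - 1) ≤ ℓ * (r * (r - 1))) ∧
    (2 ≤ r → r ≤ k → ∃ ℓ : ℕ, Nonempty (DefinableReduction n k r ℓ) ∧ ℓ * r ^ 2 ≤ 44 * k ^ 2) :=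
  ⟨fun _ ⟨R⟩ _ h1 h2 => lower R h1 h2, fun h2 hr => upper n h2 hr⟩

/-- For `k 2^k + k ≤ n` the optimal length is `k²/r²` up to a constant factor. -/
theorem optimal_length {n k r : ℕ} (hr : 2 ≤ r) (hk : r ≤ k) (hn : k * 2 ^ k + k ≤ n) :
    (∀ ℓ : ℕ, Nonempty (DefinableReduction n k r ℓ) → k ^ 2 ≤ ℓ * r ^ 2) ∧
      ∃ ℓ : ℕ, Nonempty (DefinableReduction n k r ℓ) ∧ ℓ * r ^ 2 ≤ 44 * k ^ 2 := by
  refine ⟨fun ℓ h => ?_, (result n k r).2 hr hk⟩
  have h1 := (result n k r).1 ℓ h k le_rfl hn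
  obtain ⟨a, rfl⟩ : ∃ a, r = a + 2 := ⟨r - 2, by omega⟩
  obtain ⟨b, rfl⟩ : ∃ b, k = b + (a + 2) := ⟨k - (a + 2), by omega⟩
  have e1 : b + (a + 2) - 1 = b + a + 1 := by omega
  have e2 : a + 2 - 1 = a + 1 := by omega
  rw [e1, e2] at h1
  -- `k (r - 1) ≤ r (k - 1)`
  have h2 : (b + (a + 2)) * (a + 1) ≤ (a + 2) * (b + a + 1) := by nlinarith
  have h3 : (b + (a + 2)) ^ 2 * (a + 1) ≤ ℓ * (a + 2) ^ 2 * (a + 1) := by
    calc (b + (a + 2)) ^ 2 * (a + 1) = (b + (a + 2)) * ((b + (a + 2)) * (a + 1)) := by ring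
      _ ≤ (b + (a + 2)) * ((a + 2) * (b + a + 1)) := Nat.mul_le_mul_left _ h2
      _ = (a + 2) * ((b + (a + 2)) * (b + a + 1)) := by ring
      _ ≤ (a + 2) * (ℓ * ((a + 2) * (a + 1))) := Nat.mul_le_mul_left _ h1
      _ = ℓ * (a + 2) ^ 2 * (a + 1) := by ring
  exact Nat.le_of_mul_le_mul_right h3 (Nat.succ_pos a)

/-- There is no ept-reduction definable with a bounded number of variables. -/
theorem no_ept_reduction (c r : ℕ) : ∃ K : ℕ, ∀ k : ℕ, K ≤ k → ∀ n : ℕ, k * 2 ^ k + k ≤ n →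
    n ≤ 2 ^ (c * k) → IsEmpty (DefinableReduction n k r (c * (k + Nat.log 2 n + 1))) := by
  refine ⟨c * (c + 2) * (r * (r - 1)) + 2, fun k hk n hn hn2 => ⟨fun R => ?_⟩⟩
  have h1 := (result n k r).1 _ ⟨R⟩ k le_rfl hn
  have h2 : Nat.log 2 n ≤ c * k := by
    calc Nat.log 2 n ≤ Nat.log 2 (2 ^ (c * k)) := Nat.log_mono_right hn2
      _ = c * k := Nat.log_pow (by norm_num) _
  have hk0 : 2 ≤ k := le_trans (Nat.le_add_left 2 _) hk
  have h3 : c * (k + Nat.log 2 n + 1) ≤ c * (c + 2) * k := by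
    calc c * (k + Nat.log 2 n + 1) ≤ c * (k + c * k + k) := Nat.mul_le_mul_left _ (by omega)
      _ = c * (c + 2) * k := by ring
  have h4 : k * (k - 1) ≤ k * (c * (c + 2) * (r * (r - 1))) := by
    calc k * (k - 1) ≤ c * (k + Nat.log 2 n + 1) * (r * (r - 1)) := h1
      _ ≤ c * (c + 2) * k * (r * (r - 1)) := Nat.mul_le_mul_right _ h3
      _ = k * (c * (c + 2) * (r * (r - 1))) := by ring
  have h5 := Nat.le_of_mul_le_mul_left h4 (by omega : 0 < k)
  omega

end Pool.Agent.Results.MP_2b48c2_lc.CountingLogic
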