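import Pool.Agent.helper60.EPT.AllS

/-!
# An ept-reduction from `p-CLIQUE` to `p-MC(Σ₁)` refutes the exponential time hypothesis

The definitions are in `Pool/Agent/helper60/EPT/Defs.lean` and `Pool/Agent/helper60/EPT/DefsE.lean`. The parameter of `p-MC(Σ₁)` is the
length of the sentence as a word over a finite alphabet. The theorem covers all (uniform) ept-reductions. The proof contains the sparsification
lemma of Impagliazzo, Paturi and Zane.
-/

set_option autoImplicit false

namespace Pool.Agent.Results.MP_2b48c2_lc.EptReductionsRefuteEth

open Pool.Agent.EPT

/-- If there is an ept-reduction from `p-CLIQUE` to `p-MC(Σ₁)`, then the exponential time hypothesis is false. -/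
theorem result (h : EptRed pClique pMC) : ¬ ETH := eptRed_not_ETH h

end Pool.Agent.Results.MP_2b48c2_lc.EptReductionsRefuteEth
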