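import Pool.Agent.helper64.EWDefs
import Pool.Agent.helper64.Circ
import Pool.Agent.helper88.EW.CPlanted

/-!
# No ept-reduction from `p-CLIQUE` to `p-MC(Σ₁)` by bounded-depth circuits with modular gates

Consider reductions from the `k`-clique problem on graphs with `n` vertices to model checking of
`Σ₁`-sentences all of whose output bits are computed by circuits of the following kind, of size
`n^{O(1)}`: first constantly many layers of AND and OR gates of unbounded fan-in and of arbitrary
gates such that the product of the fan-ins of the arbitrary gates on every path is at most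
`n^(1-η)`, then polynomials over the field with `p` elements (for instance `MOD p` gates of
unbounded fan-in) whose degrees sum up to at most `D`, and an arbitrary function of their values.
For all `n` and `k` with `k ≤ O(log n)` the sentences have length `Ω(k²/D)`. In particular there is
no ept-reduction from `p-CLIQUE` to `p-MC(Σ₁)` of this kind with `D = o(k)`.
-/

open Finset FirstOrder

set_option linter.style.haveILetI false

namespace Pool.Agent.Results.MP_2b48c2_lc.ModularReductions

open Pool.Agent.helper64 Pool.Agent.helper88.EW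

/-- A reduction from the clique problem (is there a clique of `k` vertices in a graph on `n`
vertices?) to the model checking problem for `Σ₁`, which puts out at most `M` bits, each of them
computed by circuits as in `IsM p M d q D`. The structure `A(G)` and the sentence `φ(G)` may be
encoded by these bits in any way such that every atomic fact about `A(G)` can be read off from few
bits: for every `G` and every tuple of length `a`, at most `a + 1` of the bits (which may depend on
`G` and on the tuple) decide by their values at `G` whether the tuple is in a given relation.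
This is so if the relations are given by tables, and also if they are given by lists of tuples (see
`of_boundedDepth`). -/
structure ModularReduction (n k p d q D M ℓ : ℕ) where
  /-- A relational vocabulary. (If the vocabulary of the structure `A(G)` depends on `G`, take all
  symbols which may occur, and interpret the symbols which are not in use by the empty
  relation.) -/
  L : FirstOrder.Language.{0, 0}
  relational : L.IsRelational
  /-- The universes are subsets of `{0, …, N-1}`. -/
  N : ℕ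
  /-- The universe of the structure `A(G)`. -/
  univ : SimpleGraph (Fin n) → Set (Fin N)
  /-- The relations of `A(G)`. -/
  rel : SimpleGraph (Fin n) → ∀ a : ℕ, L.Relations a → (Fin a → Fin N) → Prop
  /-- The sentence `φ(G)`. -/
  sent : SimpleGraph (Fin n) → L.Sentence
  /-- The sentence is a `Σ₁`-sentence ... -/
  existential : ∀ G, (sent G).IsExistential
  /-- ... of length at most `ℓ`. -/
  len_le : ∀ G, len (sent G) ≤ ℓ
  /-- The bits put out by the reduction. -/
  Bit : Type
  bit_fintype : Fintype Bit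
  bit_card : Fintype.card Bit ≤ M
  bit : Bit → SimpleGraph (Fin n) → Prop
  /-- The bits are computed by circuits. -/
  bit_circ : ∀ i, IsM p M d q D (bit i)
  /-- Whether `x` is in the universe of `A(G)` can be read off from one bit. -/
  univ_bit : ∀ G x, ∃ i, ∀ G', (bit i G' ↔ bit i G) → (x ∈ univ G' ↔ x ∈ univ G)
  /-- Whether a tuple of length `a` is in a relation can be read off from `a + 1` bits. -/
  rel_bit : ∀ G (a : ℕ) (R : L.Relations a) (t : Fin a → Fin N), ∃ J : Finset Bit,
    J.card ≤ a + 1 ∧ ∀ G', (∀ i ∈ J, (bit i G' ↔ bit i G)) → (rel G' a R t ↔ rel G a R t)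
  /-- The sentence `φ(G)` can be read off from `ℓ` bits. -/
  sent_bit : ∀ G, ∃ J : Finset Bit, J.card ≤ ℓ ∧
    ∀ G', (∀ i ∈ J, (bit i G' ↔ bit i G)) → sent G' = sent G
  /-- Correctness of the reduction: `G` has a clique of `k` vertices iff `A(G) ⊨ φ(G)`. -/
  correct : ∀ G : SimpleGraph (Fin n), ¬ G.CliqueFree k ↔
    @FirstOrder.Language.Sentence.Realize L (univ G) (mkStr relational (univ G) (rel G)) (sent G)

section Preservation

variable {L : FirstOrder.Language.{0, 0}} (hL : L.IsRelational) {N : ℕ}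

/-- The variable which is the given term (the vocabulary is relational). -/
def tvar {n : ℕ} : L.Term (Empty ⊕ Fin n) → Fin n
  | .var (Sum.inl e) => e.elim
  | .var (Sum.inr i) => i
  | .func f _ => ((hL _).false f).elim

theorem realize_tvar {n : ℕ} {M : Type} [L.Structure M] (v : Empty → M) (xs : Fin n → M)
    (t : L.Term (Empty ⊕ Fin n)) : t.realize (Sum.elim v xs) = xs (tvar hL t) := by
  match t with
  | .var (Sum.inl e) => exact e.elim
  | .var (Sum.inr i) => rfl
  | .func f _ => exact ((hL _).false f).elim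

/-- Satisfaction in the structure given by `D` and `h`. -/
def Sat (D : Set (Fin N)) (h : ∀ a : ℕ, L.Relations a → (Fin a → Fin N) → Prop) {n : ℕ}
    (φ : L.BoundedFormula Empty n) (xs : Fin n → D) : Prop :=
  @FirstOrder.Language.BoundedFormula.Realize L D (mkStr hL D h) Empty n φ default xs

/-- The facts about a structure: atomic facts and membership in the universe. -/
abbrev Fact (L : FirstOrder.Language.{0, 0}) (N : ℕ) : Type :=
  (Σ a : ℕ, L.Relations a × (Fin a → Fin N)) ⊕ Fin N

/-- Two structures agree on a fact. -/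
def Agree (D D' : Set (Fin N)) (h h' : ∀ a : ℕ, L.Relations a → (Fin a → Fin N) → Prop) :
    Fact L N → Prop
  | Sum.inl ⟨a, R, t⟩ => (h a R t ↔ h' a R t)
  | Sum.inr x => (x ∈ D ↔ x ∈ D')

/-- The number of symbols used for a fact. -/
def cost : Fact L N → ℕ
  | Sum.inl ⟨a, _, _⟩ => a + 1
  | Sum.inr _ => 1

variable {E : Type} (cert : Fact L N → Finset E) (hcert : ∀ f, (cert f).card ≤ cost f)

include hcert in
theorem qf_preserved (D : Set (Fin N)) (h : ∀ a : ℕ, L.Relations a → (Fin a → Fin N) → Prop)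
    {n : ℕ} (φ : L.BoundedFormula Empty n) (hφ : φ.IsQF) (xs : Fin n → D) :
    ∃ T : Finset E, T.card ≤ len φ ∧
      ∀ (D' : Set (Fin N)) (h' : ∀ a : ℕ, L.Relations a → (Fin a → Fin N) → Prop)
        (xs' : Fin n → D'), (∀ i, (xs' i : Fin N) = xs i) →
        (∀ f, cert f ⊆ T → Agree D D' h h' f) →
        (Sat hL D h φ xs ↔ Sat hL D' h' φ xs') := by
  classical
  induction hφ with
  | falsum =>
    refine ⟨∅, by simp, ?_⟩
    intro D' h' xs' _ _
    exact Iff.rfl
  | @of_isAtomic φ hat =>
    cases hat with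
    | equal t₁ t₂ =>
      refine ⟨∅, by simp, ?_⟩
      intro D' h' xs' hxs _
      have e1 : Sat hL D h (t₁.bdEqual t₂) xs ↔ xs (tvar hL t₁) = xs (tvar hL t₂) := by
        letI := mkStr hL D h
        show t₁.realize (Sum.elim default xs) = t₂.realize (Sum.elim default xs) ↔ _
        rw [realize_tvar hL, realize_tvar hL]
      have e2 : Sat hL D' h' (t₁.bdEqual t₂) xs' ↔ xs' (tvar hL t₁) = xs' (tvar hL t₂) := by
        letI := mkStr hL D' h'
        show t₁.realize (Sum.elim default xs') = t₂.realize (Sum.elim default xs') ↔ _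
        rw [realize_tvar hL, realize_tvar hL]
      rw [e1, e2, Subtype.ext_iff, Subtype.ext_iff, hxs, hxs]
    | @rel a R ts =>
      refine ⟨cert (Sum.inl ⟨a, R, fun i => (xs (tvar hL (ts i)) : Fin N)⟩), ?_, ?_⟩
      · exact hcert _
      · intro D' h' xs' hxs hagree
        have e1 : Sat hL D h (R.boundedFormula ts) xs ↔
            h a R (fun i => (xs (tvar hL (ts i)) : Fin N)) := by
          letI := mkStr hL D h
          have : (fun i => (ts i).realize (Sum.elim default xs)) =
              fun i => xs (tvar hL (ts i)) := by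
            funext i
            exact realize_tvar hL _ _ _
          show h a R (fun i => ((fun i => (ts i).realize (Sum.elim default xs)) i : D)) ↔ _
          rw [this]
        have e2 : Sat hL D' h' (R.boundedFormula ts) xs' ↔
            h' a R (fun i => (xs' (tvar hL (ts i)) : Fin N)) := by
          letI := mkStr hL D' h'
          have : (fun i => (ts i).realize (Sum.elim default xs')) =
              fun i => xs' (tvar hL (ts i)) := by
            funext i
            exact realize_tvar hL _ _ _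
          show h' a R (fun i => ((fun i => (ts i).realize (Sum.elim default xs')) i : D')) ↔ _
          rw [this]
        rw [e1, e2]
        have h1 := hagree _ (Finset.Subset.refl _)
        have h2 : (fun i => (xs' (tvar hL (ts i)) : Fin N)) =
            fun i => (xs (tvar hL (ts i)) : Fin N) := by
          funext i; exact hxs _
        rw [h2]
        exact h1
  | @imp φ ψ _ _ ih1 ih2 =>
    obtain ⟨T1, hT1, h1⟩ := ih1
    obtain ⟨T2, hT2, h2⟩ := ih2
    refine ⟨T1 ∪ T2, ?_, ?_⟩
    · have := Finset.card_union_le T1 T2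
      show (T1 ∪ T2).card ≤ len φ + len ψ + 1
      omega
    · intro D' h' xs' hxs hagree
      have i1 := h1 D' h' xs' hxs
        (fun f hf => hagree f (hf.trans Finset.subset_union_left))
      have i2 := h2 D' h' xs' hxs
        (fun f hf => hagree f (hf.trans Finset.subset_union_right))
      show (Sat hL D h φ xs → Sat hL D h ψ xs) ↔ (Sat hL D' h' φ xs' → Sat hL D' h' ψ xs')
      rw [i1, i2]

include hcert in
theorem ex_preserved (D : Set (Fin N)) (h : ∀ a : ℕ, L.Relations a → (Fin a → Fin N) → Prop)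
    {n : ℕ} (φ : L.BoundedFormula Empty n) (hφ : φ.IsExistential) :
    ∀ xs : Fin n → D, Sat hL D h φ xs →
    ∃ T : Finset E, T.card ≤ len φ ∧
      ∀ (D' : Set (Fin N)) (h' : ∀ a : ℕ, L.Relations a → (Fin a → Fin N) → Prop)
        (xs' : Fin n → D'), (∀ i, (xs' i : Fin N) = xs i) →
        (∀ f, cert f ⊆ T → Agree D D' h h' f) → Sat hL D' h' φ xs' := by
  classical
  induction hφ with
  | of_isQF hqf =>
    intro xs hsat
    obtain ⟨T, hT, hT'⟩ := qf_preserved hL cert hcert D h _ hqf xs
    exact ⟨T, hT, fun D' h' xs' hxs hagree => (hT' D' h' xs' hxs hagree).1 hsat⟩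
  | @ex n φ _ ih =>
    intro xs hsat
    have hsat' : ∃ x : D, Sat hL D h φ (Fin.snoc xs x) :=
      (@FirstOrder.Language.BoundedFormula.realize_ex L D (mkStr hL D h) Empty n φ default xs).1
        hsat
    obtain ⟨x, hx⟩ := hsat'
    obtain ⟨T, hT, hT'⟩ := ih (Fin.snoc xs x) hx
    refine ⟨cert (Sum.inr (x : Fin N)) ∪ T, ?_, ?_⟩
    · have h1 := Finset.card_union_le (cert (Sum.inr (x : Fin N))) T
      have h2 : len φ.ex = len φ + 1 + 1 + 1 + 1 + 1 := rfl
      have h3 : (cert (Sum.inr (x : Fin N))).card ≤ 1 := hcert _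
      omega
    · intro D' h' xs' hxs hagree
      have hxD' : (x : Fin N) ∈ D' :=
        (hagree (Sum.inr (x : Fin N)) Finset.subset_union_left).1 x.2
      refine (@FirstOrder.Language.BoundedFormula.realize_ex L D' (mkStr hL D' h') Empty n φ
        default xs').2 ⟨⟨x, hxD'⟩, ?_⟩
      refine hT' D' h' (Fin.snoc xs' ⟨x, hxD'⟩) ?_
        (fun f hf => hagree f (hf.trans Finset.subset_union_right))
      intro i
      refine Fin.lastCases ?_ (fun j => ?_) i
      · simp
      · simp [hxs]

end Preservation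

variable {n k p d q D M ℓ : ℕ}

/-- The bits which decide a fact. -/
theorem exists_cert' (ρ : ModularReduction n k p d q D M ℓ) (G : SimpleGraph (Fin n))
    (f : Fact ρ.L ρ.N) : ∃ T : Finset ρ.Bit, T.card ≤ cost f ∧ ∀ G' : SimpleGraph (Fin n),
      (∀ i ∈ T, (ρ.bit i G' ↔ ρ.bit i G)) → Agree (ρ.univ G) (ρ.univ G') (ρ.rel G) (ρ.rel G') f := by
  match f with
  | Sum.inl ⟨a, R, t⟩ =>
    obtain ⟨J, hJ, h⟩ := ρ.rel_bit G a R t
    exact ⟨J, hJ, fun G' hG' => (h G' hG').symm⟩
  | Sum.inr x =>
    obtain ⟨i, h⟩ := ρ.univ_bit G x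
    exact ⟨{i}, by simp [cost], fun G' hG' => (h G' (hG' i (Finset.mem_singleton_self _))).symm⟩

/-- The quantitative form. -/
theorem main (p : ℕ) [_root_.Fact p.Prime] (d c e : ℕ) (he : 1 ≤ e) : ∃ s K₀ : ℕ, ∀ n k : ℕ, K₀ ≤ k →
    k ≤ c * Nat.log 2 n → ∀ q D M ℓ : ℕ, q ^ e * n ≤ n ^ e → M ≤ n ^ c →
    Nonempty (ModularReduction n k p d q D M ℓ) → k ^ 2 ≤ s * (ℓ * D) := by
  obtain ⟨C, K1, hs⟩ := mod_planted p d (4 * c) e he
  refine ⟨2 * C + 1, K1 + 2, ?_⟩
  intro n k hk hkL q D M ℓ hq hM ⟨ρ⟩
  classical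
  by_contra hcon
  push Not at hcon
  set L := Nat.log 2 n with hLdef
  have hLpos : 1 ≤ L := by
    rcases Nat.eq_zero_or_pos L with h | h
    · rw [h] at hkL; omega
    · exact h
  have hn : n ≤ 2 ^ (2 * L) := by
    have h1 : n < 2 ^ (L + 1) := Nat.lt_pow_succ_log_self (by norm_num) n
    exact h1.le.trans (Nat.pow_le_pow_right (by norm_num) (by omega))
  have hM2 : M ≤ 2 ^ (2 * c * L) := by
    calc M ≤ n ^ c := hM
      _ ≤ (2 ^ (2 * L)) ^ c := Nat.pow_le_pow_left hn c
      _ = 2 ^ (2 * c * L) := by rw [← pow_mul]; congr 1; ring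
  have hM4 : M * M ≤ 2 ^ (4 * c * L) := by
    calc M * M ≤ 2 ^ (2 * c * L) * 2 ^ (2 * c * L) := Nat.mul_le_mul hM2 hM2
      _ = 2 ^ (4 * c * L) := by rw [← pow_add]; congr 1; ring
  letI := ρ.bit_fintype
  -- the circuits
  choose g t P F hg hP hF using ρ.bit_circ
  have hκ : Fintype.card (ρ.Bit × Fin M) ≤ 2 ^ (4 * c * L) := by
    rw [Fintype.card_prod, Fintype.card_fin]
    exact (Nat.mul_le_mul_right M ρ.bit_card).trans hM4
  obtain ⟨G, hG, hG'⟩ := hs n k (by omega) (hkL.trans (Nat.mul_le_mul_right L (by omega))) M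
    (hM2.trans (Nat.pow_le_pow_right (by norm_num) (Nat.mul_le_mul_right L (by omega)))) q hq
    (ρ.Bit × Fin M) hκ (fun x => g x.1 x.2) (fun x => hg x.1 x.2)
  -- the sentence is true for G
  have hsat : Sat ρ.relational (ρ.univ G) (ρ.rel G) (ρ.sent G) default := (ρ.correct G).1 hG
  choose cert hcert1 hcert2 using exists_cert' ρ G
  obtain ⟨T, hT, hT'⟩ := ex_preserved ρ.relational cert hcert1 (ρ.univ G)
    (ρ.rel G) (ρ.sent G) (ρ.existential G) default hsat
  obtain ⟨J, hJ, hsent⟩ := ρ.sent_bit G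
  -- all bits which are used
  have hTJ : (T ∪ J).card ≤ 2 * ℓ := by
    have h1 := Finset.card_union_le T J
    have h4 := ρ.len_le G
    omega
  obtain ⟨G', hfree, hval⟩ := hG' (Σ i : ρ.Bit, Fin (t i)) ((T ∪ J).sigma fun _ => Finset.univ)
    (fun x => MvPolynomial.rename (fun j => (x.1, j)) (P x.1 x.2)) (by
      calc C * ∑ x ∈ (T ∪ J).sigma (fun i => (Finset.univ : Finset (Fin (t i)))),
            (MvPolynomial.rename (fun j => (x.1, j)) (P x.1 x.2)).totalDegree
          ≤ C * ∑ i ∈ T ∪ J, ∑ s : Fin (t i), (P i s).totalDegree := by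
            refine Nat.mul_le_mul_left C ?_
            rw [Finset.sum_sigma]
            exact Finset.sum_le_sum fun i _ => Finset.sum_le_sum fun s _ =>
              MvPolynomial.totalDegree_rename_le _ _
        _ ≤ C * ∑ i ∈ T ∪ J, D :=
            Nat.mul_le_mul_left C (Finset.sum_le_sum fun i _ => hP i)
        _ = C * ((T ∪ J).card * D) := by rw [Finset.sum_const, smul_eq_mul]
        _ ≤ C * (2 * ℓ * D) := Nat.mul_le_mul_left C (Nat.mul_le_mul_right D hTJ)
        _ ≤ (2 * C + 1) * (ℓ * D) := by nlinarith [Nat.zero_le (ℓ * D)]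
        _ ≤ k ^ 2 := hcon.le)
  have hbit : ∀ i ∈ T ∪ J, (ρ.bit i G' ↔ ρ.bit i G) := by
    intro i hi
    rw [hF, hF]
    have : (fun s => MvPolynomial.eval (fun j => pv p (g i j G')) (P i s)) =
        (fun s => MvPolynomial.eval (fun j => pv p (g i j G)) (P i s)) := by
      funext s
      have h1 := hval ⟨i, s⟩ (Finset.mem_sigma.2 ⟨hi, Finset.mem_univ _⟩)
      simp only [MvPolynomial.eval_rename] at h1
      exact h1
    rw [this]
  have hs' : ρ.sent G' = ρ.sent G :=
    hsent G' fun i hi => hbit i (Finset.mem_union_right _ hi)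
  have hsat' : Sat ρ.relational (ρ.univ G') (ρ.rel G') (ρ.sent G) default := by
    refine hT' (ρ.univ G') (ρ.rel G') default (fun i => i.elim0) fun f hf => ?_
    exact hcert2 f G' fun i hi => hbit i (Finset.mem_union_left _ (hf hi))
  rw [← hs'] at hsat'
  exact (ρ.correct G').2 hsat' hfree

/-- From a real exponent to the natural form. -/
theorem exponent {n q e : ℕ} {η : ℝ} (he : 1 ≤ e) (hη : 1 / (e : ℝ) ≤ η) (hn : 1 ≤ n)
    (hq : (q : ℝ) ≤ (n : ℝ) ^ (1 - η)) : q ^ e * n ≤ n ^ e := by
  have hn' : (1:ℝ) ≤ n := by exact_mod_cast hn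
  have hn0 : (0:ℝ) < n := by linarith
  have he' : (0:ℝ) < e := by exact_mod_cast he
  have h1 : (q : ℝ) ^ e * n ≤ (n : ℝ) ^ e := by
    calc (q : ℝ) ^ e * n ≤ ((n : ℝ) ^ (1 - η)) ^ e * n := by gcongr
      _ = (n : ℝ) ^ ((1 - η) * e + 1) := by
          rw [← Real.rpow_natCast ((n : ℝ) ^ (1 - η)) e, ← Real.rpow_mul hn0.le,
            Real.rpow_add hn0, Real.rpow_one]
      _ ≤ (n : ℝ) ^ ((e : ℕ) : ℝ) := by
          refine Real.rpow_le_rpow_of_exponent_le hn' ?_
          have h2 : 1 ≤ η * e := by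
            rw [div_le_iff₀ he'] at hη
            exact hη
          nlinarith
      _ = (n : ℝ) ^ e := Real.rpow_natCast _ _
  exact_mod_cast h1

/-- **Theorem.** Fix a prime `p`, numbers `d`, `c` and `η > 0`. There are `ε > 0` and `K₀` such that
for all `n` and `k` with `K₀ ≤ k ≤ c * log n`, every reduction from the `k`-clique problem on graphs
with `n` vertices to model checking of `Σ₁`-sentences, computed by circuits of depth `d` and size
`n^c` with arbitrary gates, the product of whose fan-ins on every path is at most `n^(1-η)`, and by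
polynomials over the field with `p` elements of total degree at most `D`, needs sentences of length
at least `ε * k^2 / D`. -/
theorem result (p : ℕ) (hp : p.Prime) (d c : ℕ) (η : ℝ) (hη : 0 < η) : ∃ ε : ℝ, 0 < ε ∧ ∃ K₀ : ℕ,
    ∀ n k : ℕ, K₀ ≤ k → k ≤ c * Nat.log 2 n → ∀ q D M ℓ : ℕ, (q : ℝ) ≤ (n : ℝ) ^ (1 - η) →
    M ≤ n ^ c → Nonempty (ModularReduction n k p d q D M ℓ) → ε * (k : ℝ) ^ 2 ≤ ℓ * D := by
  obtain ⟨e, he⟩ := exists_nat_one_div_lt hη
  haveI : _root_.Fact p.Prime := ⟨hp⟩
  obtain ⟨s, K₀, h⟩ := main p d c (e + 1) (Nat.le_add_left 1 e)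
  refine ⟨1 / ((s : ℝ) + 1), by positivity, K₀ + 1, ?_⟩
  intro n k hk hkL q D M ℓ hq hM hρ
  have hn : 1 ≤ n := by
    by_contra hcon
    have h0 : n = 0 := by omega
    rw [h0, Nat.log_zero_right] at hkL
    omega
  have h1 := h n k (by omega) hkL q D M ℓ (exponent (Nat.le_add_left 1 e) (by
    push_cast
    exact he.le) hn hq) hM hρ
  have h2 : (k : ℝ) ^ 2 ≤ s * (ℓ * D) := by exact_mod_cast h1
  have h3 : (0:ℝ) ≤ ℓ * D := by positivity
  have h4 : (0:ℝ) ≤ s := Nat.cast_nonneg s
  rw [one_div, inv_mul_le_iff₀ (by positivity)]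
  nlinarith

/-- There is no ept-reduction from `p-CLIQUE` to `p-MC(Σ₁)` computed by such circuits of constant
depth and size `2^{O(k)} * n^{O(1)}` with `D = o(k)`: its sentences would have length
`O(k + log n)`. -/
theorem no_ept_reduction (p : ℕ) (hp : p.Prime) (d : ℕ) (η : ℝ) (hη : 0 < η) (D : ℕ → ℕ)
    (hD : ∀ δ : ℝ, 0 < δ → ∃ k₀, ∀ k, k₀ ≤ k → (D k : ℝ) ≤ δ * k) : ¬ ∃ c : ℕ, ∀ n k : ℕ, Nonempty
    (ModularReduction n k p d ⌊(n : ℝ) ^ (1 - η)⌋₊ (D k) (2 ^ (c * (k + Nat.log 2 n + 1)))
      (c * (k + Nat.log 2 n + 1))) := by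
  rintro ⟨c, h⟩
  obtain ⟨ε, hε, K₀, hmain⟩ := result p hp d (3 * c + 1) η hη
  obtain ⟨k₀, hk₀⟩ := hD (ε / (3 * c + 1) / 2) (by positivity)
  -- k = log n
  set k := K₀ + k₀ + 1 with hk
  have hlog : Nat.log 2 (2 ^ k) = k := Nat.log_pow (by norm_num) k
  have h1 := hmain (2 ^ k) k (by omega) (by rw [hlog]; nlinarith)
    ⌊((2 ^ k : ℕ) : ℝ) ^ (1 - η)⌋₊ (D k)
    (2 ^ (c * (k + Nat.log 2 (2 ^ k) + 1))) (c * (k + Nat.log 2 (2 ^ k) + 1))
    (Nat.floor_le (by positivity)) ?_ (h _ _)
  · rw [hlog] at h1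
    have hkpos : (0:ℝ) < k := by
      have : 0 < k := by omega
      exact_mod_cast this
    have h2 : ((c * (k + k + 1) : ℕ) : ℝ) ≤ (3 * c + 1) * k := by
      have h3 : c * (k + k + 1) ≤ (3 * c + 1) * k := by
        have : k + k + 1 ≤ 3 * k := by omega
        calc c * (k + k + 1) ≤ c * (3 * k) := Nat.mul_le_mul_left c this
          _ ≤ (3 * c + 1) * k := by nlinarith
      exact_mod_cast h3
    have h3 := hk₀ k (by omega)
    have hc : (0:ℝ) < 3 * c + 1 := by positivity
    have h4 : ε * (k : ℝ) ^ 2 ≤ ε / 2 * (k : ℝ) ^ 2 := by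
      calc ε * (k : ℝ) ^ 2 ≤ ((c * (k + k + 1) : ℕ) : ℝ) * D k := h1
        _ ≤ ((3 * c + 1) * k) * (ε / (3 * c + 1) / 2 * k) := by gcongr
        _ = ε / 2 * (k : ℝ) ^ 2 := by field_simp
    have h5 : (0:ℝ) < (k : ℝ) ^ 2 := by positivity
    nlinarith
  · rw [hlog, ← pow_mul]
    refine Nat.pow_le_pow_right (by norm_num) ?_
    have h5 : k + k + 1 ≤ 3 * k := by omega
    calc c * (k + k + 1) ≤ c * (3 * k) := Nat.mul_le_mul_left c h5
      _ ≤ c * (3 * k) + k := Nat.le_add_right _ _
      _ = k * (3 * c + 1) := by ring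

/-! ### Lists of tuples: reductions computed by bounded-depth circuits are of this kind -/

section Elementary

variable {n k d M ℓ : ℕ} (ρ : BoundedDepthReduction n k d M ℓ)

/-- The symbols of the vocabulary. -/
abbrev Sy (ρ : BoundedDepthReduction n k d M ℓ) : Type := Σ a : ℕ, ρ.L.Relations a

/-- Elementary facts about the output. -/
abbrev Elem (ρ : BoundedDepthReduction n k d M ℓ) : Type :=
  Fin ρ.N ⊕ ((Fin M × Option (Sy ρ)) ⊕ ((Fin M × (Fin M × Fin ρ.N)) ⊕
    (Sy ρ ⊕ (Sy ρ × (Fin M × (Fin M × Fin ρ.N))))))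

/-- The record `j` has symbol `σ`, agrees with the record `j₀` up to position `i` and has entry `x`
at the position `i`. -/
def Ext (G : SimpleGraph (Fin n)) (σ : Sy ρ) (j₀ : Fin M) (i : ℕ) (x : Fin ρ.N)
    (j : Fin M) : Prop :=
  ρ.symb G j = some σ ∧ (∀ p : Fin i, ρ.entry G j p = ρ.entry G j₀ p) ∧ ρ.entry G j i = x

/-- The truth of an elementary fact. -/
def Holds (G : SimpleGraph (Fin n)) : Elem ρ → Prop
  | Sum.inl x => x ∈ ρ.univ G
  | Sum.inr (Sum.inl (j, σ)) => ρ.symb G j = σ
  | Sum.inr (Sum.inr (Sum.inl (j, (i, x)))) => ρ.entry G j i = x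
  | Sum.inr (Sum.inr (Sum.inr (Sum.inl σ))) => ∃ j, ρ.symb G j = some σ
  | Sum.inr (Sum.inr (Sum.inr (Sum.inr (σ, (j₀, (i, x)))))) => ∃ j, Ext ρ G σ j₀ i x j

include ρ in
theorem M_pos : 0 < M := by
  have h1 : 1 ≤ ℓ := by
    refine le_trans ?_ (ρ.len_le ⊥)
    generalize ρ.sent ⊥ = φ
    change 1 ≤ len (φ : ρ.L.BoundedFormula Empty 0)
    cases φ <;> simp [len]
  exact Fin.pos (ρ.word ⊥ ⟨0, h1⟩)

theorem holds_ac0 (e : Elem ρ) : IsAC0 (M + 2) (d + 4) (fun G => Holds ρ G e) := by
  have h0 : 0 < M := M_pos ρ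
  have h0' : 0 < M + 2 := by omega
  have hle : M ≤ M + 2 := by omega
  have : Nonempty (Fin M) := ⟨⟨0, h0⟩⟩
  match e with
  | Sum.inl x => exact ((ρ.univ_ac0 x).mono h0 hle).add h0' 4
  | Sum.inr (Sum.inl (j, σ)) => exact ((ρ.symb_ac0 j σ).mono h0 hle).add h0' 4
  | Sum.inr (Sum.inr (Sum.inl (j, (i, x)))) => exact ((ρ.entry_ac0 j i x).mono h0 hle).add h0' 4
  | Sum.inr (Sum.inr (Sum.inr (Sum.inl σ))) =>
    have h1 : IsAC0 (M + 2) (d + 3) (fun G => ∃ j, ρ.symb G j = some σ) := by
      refine IsAC0.exists (by simp) fun j => ?_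
      exact ((ρ.symb_ac0 j _).mono h0 hle).add h0' 2
    exact h1.add h0' 1
  | Sum.inr (Sum.inr (Sum.inr (Sum.inr (σ, (j₀, (i, x)))))) =>
    refine IsAC0.exists (by simp) fun j => ?_
    -- the conjunction
    have h1 : IsAC0 (M + 2) (d + 2 + 1) (fun G => ∀ r : Option (Option (Fin (i : ℕ))),
        (match r with
        | none => ρ.symb G j = some σ
        | some none => ρ.entry G j i = x
        | some (some p) => ∃ y : Fin ρ.N, ρ.entry G j p = y ∧ ρ.entry G j₀ p = y)) := by
      refine IsAC0.forall ?_ fun r => ?_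
      · simp only [Fintype.card_option, Fintype.card_fin]
        omega
      · match r with
        | none => exact ((ρ.symb_ac0 j _).mono h0 hle).add h0' 2
        | some none => exact ((ρ.entry_ac0 j i x).mono h0 hle).add h0' 2
        | some (some p) =>
          have : Nonempty (Fin ρ.N) := ⟨ρ.entry ⊥ j p⟩
          refine IsAC0.exists ?_ fun y => ?_
          · have := ρ.univ_size
            simp only [Fintype.card_fin]
            omega
          · exact ((ρ.entry_ac0 j p y).mono h0 hle).and (by omega)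
              ((ρ.entry_ac0 j₀ p y).mono h0 hle)
    convert h1 using 2 with G
    constructor
    · rintro ⟨h2, h3, h4⟩ r
      match r with
      | none => exact h2
      | some none => exact h4
      | some (some p) => exact ⟨_, h3 p, rfl⟩
    · intro h
      refine ⟨h none, ?_, h (some none)⟩
      intro p
      obtain ⟨y, h5, h6⟩ := h (some (some p))
      rw [h5, h6]

/-- Every atomic fact about the output is determined by few elementary facts. -/
theorem exists_cert (G : SimpleGraph (Fin n)) (f : Fact ρ.L ρ.N) :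
    ∃ T : Finset (Elem ρ), T.card ≤ cost f ∧ ∀ G' : SimpleGraph (Fin n),
      (∀ e ∈ T, (Holds ρ G e ↔ Holds ρ G' e)) →
      Agree (ρ.univ G) (ρ.univ G') (listed (ρ.symb G) (ρ.entry G))
        (listed (ρ.symb G') (ρ.entry G')) f := by
  classical
  match f with
  | Sum.inr x =>
    exact ⟨{Sum.inl x}, by simp [cost], fun G' h => h _ (Finset.mem_singleton_self _)⟩
  | Sum.inl ⟨a, R, t⟩ =>
    have haM : a ≤ M := ρ.arity_le a R
    by_cases hpos : listed (ρ.symb G) (ρ.entry G) a R t
    · -- a tuple which is in the relation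
      obtain ⟨j, hj1, hj2⟩ := hpos
      refine ⟨insert (Sum.inr (Sum.inl (j, some ⟨a, R⟩)))
        ((Finset.univ : Finset (Fin a)).image
          (fun p : Fin a => Sum.inr (Sum.inr (Sum.inl (j, (⟨p, by omega⟩, t p)))))), ?_, ?_⟩
      · refine (Finset.card_insert_le _ _).trans ?_
        have h1 : ((Finset.univ : Finset (Fin a)).image (fun p : Fin a =>
          (Sum.inr (Sum.inr (Sum.inl (j, (⟨p, by omega⟩, t p)))) : Elem ρ))).card ≤ a := by
          refine Finset.card_image_le.trans ?_
          rw [Finset.card_univ, Fintype.card_fin]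
        exact Nat.add_le_add_right h1 1
      · intro G' hG'
        refine ⟨fun _ => ⟨j, ?_, ?_⟩, fun _ => ⟨j, hj1, hj2⟩⟩
        · exact (hG' _ (Finset.mem_insert_self _ _)).1 hj1
        · intro p
          exact (hG' _ (Finset.mem_insert_of_mem (Finset.mem_image.2
            ⟨p, Finset.mem_univ p, rfl⟩))).1 (hj2 p)
    · by_cases hnone : ∃ j, ρ.symb G j = some ⟨a, R⟩
      · -- the longest prefix which occurs
        have hex : ∃ i : ℕ, i < a ∧ (∃ j, ρ.symb G j = some ⟨a, R⟩ ∧
            ∀ p : Fin a, (p : ℕ) < i → ρ.entry G j p = t p) ∧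
            ¬ (∃ j, ρ.symb G j = some ⟨a, R⟩ ∧
            ∀ p : Fin a, (p : ℕ) < i + 1 → ρ.entry G j p = t p) := by
          by_contra hcon
          push Not at hcon
          have hall : ∀ i : ℕ, i ≤ a → ∃ j, ρ.symb G j = some ⟨a, R⟩ ∧
              ∀ p : Fin a, (p : ℕ) < i → ρ.entry G j p = t p := by
            intro i
            induction i with
            | zero =>
              intro _
              obtain ⟨j, hj⟩ := hnone
              exact ⟨j, hj, fun p hp => absurd hp (Nat.not_lt_zero _)⟩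
            | succ i ih =>
              intro hi
              obtain ⟨j, hj, hj'⟩ := ih (by omega)
              exact hcon i (by omega) ⟨j, hj, hj'⟩
          obtain ⟨j, hj, hj'⟩ := hall a le_rfl
          exact hpos ⟨j, hj, fun p => hj' p p.2⟩
        obtain ⟨i, hia, ⟨j₀, hj₀, hj₀'⟩, hmax⟩ := hex
        refine ⟨insert (Sum.inr (Sum.inr (Sum.inr (Sum.inr
            (⟨a, R⟩, (j₀, (⟨i, by omega⟩, t ⟨i, hia⟩)))))))
          ((Finset.univ : Finset (Fin i)).image
            (fun p : Fin i => Sum.inr (Sum.inr (Sum.inl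
              (j₀, (⟨p, by omega⟩, t ⟨p, by omega⟩)))))), ?_, ?_⟩
        · refine (Finset.card_insert_le _ _).trans ?_
          have h1 : ((Finset.univ : Finset (Fin i)).image (fun p : Fin i =>
            (Sum.inr (Sum.inr (Sum.inl (j₀, (⟨p, by omega⟩, t ⟨p, by omega⟩)))) :
              Elem ρ))).card ≤ i := by
            refine Finset.card_image_le.trans ?_
            rw [Finset.card_univ, Fintype.card_fin]
          show _ ≤ a + 1
          omega
        · intro G' hG'
          refine ⟨fun h => absurd h hpos, fun h => ?_⟩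
          exfalso
          obtain ⟨j, hj, hj'⟩ := h
          have hent : ∀ p : Fin i, ρ.entry G' j₀ p = t ⟨p, by omega⟩ := by
            intro p
            exact (hG' _ (Finset.mem_insert_of_mem (Finset.mem_image.2
              ⟨p, Finset.mem_univ p, rfl⟩))).1 (hj₀' ⟨p, by omega⟩ p.2)
          have h1 : ∃ j, Ext ρ G' ⟨a, R⟩ j₀ i (t ⟨i, hia⟩) j := by
            refine ⟨j, hj, ?_, hj' ⟨i, hia⟩⟩
            intro p
            rw [hent p]
            exact hj' ⟨p, by omega⟩
          have h2 : ∃ j, Ext ρ G ⟨a, R⟩ j₀ i (t ⟨i, hia⟩) j :=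
            (hG' _ (Finset.mem_insert_self _ _)).2 h1
          obtain ⟨j', h3, h4, h5⟩ := h2
          apply hmax
          refine ⟨j', h3, ?_⟩
          intro p hp
          rcases Nat.lt_succ_iff_lt_or_eq.1 hp with hp | hp
          · rw [h4 ⟨p, hp⟩]
            exact hj₀' p hp
          · have : p = ⟨i, hia⟩ := Fin.ext hp
            rw [this]
            exact h5
      · -- the relation is empty
        refine ⟨{Sum.inr (Sum.inr (Sum.inr (Sum.inl ⟨a, R⟩)))}, ?_, ?_⟩
        · rw [Finset.card_singleton]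
          show 1 ≤ a + 1
          omega
        · intro G' hG'
          have h1 := hG' _ (Finset.mem_singleton_self _)
          refine ⟨fun h => absurd h hpos, fun h => ?_⟩
          obtain ⟨j, hj, -⟩ := h
          exact absurd (h1.2 ⟨j, hj⟩) hnone

end Elementary


section Lists

theorem isC_of_ac0 {V : Type} {M : ℕ} : ∀ {d : ℕ} {f : SimpleGraph V → Prop}, IsAC0 M d f →
    IsC M d 1 f := by
  intro d
  induction d with
  | zero =>
    rintro f ⟨u, v, h⟩
    refine ⟨{s(u, v)}, by simp, fun G G' hG => ?_⟩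
    have h1 := hG u v (Finset.mem_singleton_self _)
    rcases h with h | h
    · rw [h, h, h1]
    · rw [h, h, h1]
  | succ d ih =>
    rintro f ⟨g, hg, hf⟩
    exact Or.inl ⟨g, fun i => ih (hg i), hf⟩

theorem isM_of_isC {V : Type} (p : ℕ) [_root_.Fact p.Prime] {M d q : ℕ} (hM : 0 < M)
    {f : SimpleGraph V → Prop} (hf : IsC M d q f) : IsM p M d q 1 f := by
  refine ⟨fun _ => f, 1, fun _ => MvPolynomial.X ⟨0, hM⟩, fun v => v 0 = 1, fun _ => hf, ?_, ?_⟩
  · simp [MvPolynomial.totalDegree_X]
  · intro G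
    simp only [MvPolynomial.eval_X, pv]
    by_cases h : f G <;> simp [h]

/-- The reductions computed by circuits of depth `d` and fan-in `M`, where the relations are given
by lists of tuples, are modular reductions (for every prime `p`). -/
theorem of_boundedDepth (p : ℕ) [_root_.Fact p.Prime] {n k d M ℓ : ℕ}
    (ρ : BoundedDepthReduction n k d M ℓ) :
    Nonempty (ModularReduction n k p (d + 4) 1 1 ((6 + ℓ) * M ^ 4 + 2) ℓ) := by
  classical
  have h0 : 0 < M := M_pos ρ
  have hM4 : M ≤ M ^ 4 := Nat.le_self_pow (by norm_num) M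
  have hMM : M + 2 ≤ (6 + ℓ) * M ^ 4 + 2 := by
    have : M ^ 4 ≤ (6 + ℓ) * M ^ 4 := Nat.le_mul_of_pos_left _ (by omega)
    omega
  have := ρ.symbols_finite
  letI : Fintype (Sy ρ) := Fintype.ofFinite _
  have hS : Fintype.card (Sy ρ) ≤ M := by
    rw [← Nat.card_eq_fintype_card]; exact ρ.symbols_size
  have hcard : Fintype.card (Elem ρ ⊕ (Fin ℓ × Fin M)) ≤ (6 + ℓ) * M ^ 4 + 2 := by
    have h2 : Fintype.card (Elem ρ ⊕ (Fin ℓ × Fin M)) =
        ρ.N + (M * (Fintype.card (Sy ρ) + 1) + (M * (M * ρ.N) +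
        (Fintype.card (Sy ρ) + Fintype.card (Sy ρ) * (M * (M * ρ.N))))) + ℓ * M := by
      simp only [Elem, Fintype.card_sum, Fintype.card_prod, Fintype.card_fin,
        Fintype.card_option]
    have hN := ρ.univ_size
    rw [h2]
    set S := Fintype.card (Sy ρ)
    have e2 : M * M ≤ M ^ 4 := by
      calc M * M = M ^ 2 := by ring
        _ ≤ M ^ 4 := Nat.pow_le_pow_right h0 (by norm_num)
    have e3 : M * (M * ρ.N) ≤ M ^ 4 := by
      calc M * (M * ρ.N) ≤ M * (M * M) := by gcongr
        _ = M ^ 3 := by ring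
        _ ≤ M ^ 4 := Nat.pow_le_pow_right h0 (by norm_num)
    have e4 : S * (M * (M * ρ.N)) ≤ M ^ 4 := by
      calc S * (M * (M * ρ.N)) ≤ M * (M * (M * M)) := by gcongr
        _ = M ^ 4 := by ring
    have e5 : ℓ * M ≤ ℓ * M ^ 4 := Nat.mul_le_mul_left ℓ hM4
    have e6 : M * (S + 1) ≤ M ^ 4 + M ^ 4 := by
      calc M * (S + 1) ≤ M * (M + 1) := by gcongr
        _ = M * M + M := by ring
        _ ≤ M ^ 4 + M ^ 4 := by omega
    have e7 : (6 + ℓ) * M ^ 4 = M ^ 4 + ((M ^ 4 + M ^ 4) + (M ^ 4 + (M ^ 4 + M ^ 4))) +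
      ℓ * M ^ 4 := by ring
    omega
  refine ⟨{
    L := ρ.L
    relational := ρ.relational
    N := ρ.N
    univ := ρ.univ
    rel := fun G => listed (ρ.symb G) (ρ.entry G)
    sent := ρ.sent
    existential := ρ.existential
    len_le := ρ.len_le
    Bit := Elem ρ ⊕ (Fin ℓ × Fin M)
    bit_fintype := inferInstance
    bit_card := hcard
    bit := fun i G => Sum.elim (fun e => Holds ρ G e) (fun x => ρ.word G x.1 = x.2) i
    bit_circ := ?_
    univ_bit := ?_
    rel_bit := ?_
    sent_bit := ?_
    correct := ρ.correct }⟩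
  · intro i
    refine isM_of_isC p (by omega) (isC_of_ac0 ?_)
    match i with
    | Sum.inl e => exact IsAC0.mono (by omega) hMM _ _ (holds_ac0 ρ e)
    | Sum.inr (i, b) =>
      exact (IsAC0.mono h0 (by omega) _ _ (ρ.word_ac0 i b)).add (by omega) 4
  · intro G x
    exact ⟨Sum.inl (Sum.inl x), fun G' h => h⟩
  · intro G a R t
    obtain ⟨T, hT, h⟩ := exists_cert ρ G (Sum.inl ⟨a, R, t⟩)
    refine ⟨T.image Sum.inl, Finset.card_image_le.trans hT, fun G' hG' => ?_⟩
    exact (h G' fun e he => (hG' _ (Finset.mem_image_of_mem _ he)).symm).symm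
  · intro G
    refine ⟨Finset.univ.image (fun i : Fin ℓ => Sum.inr (i, ρ.word G i)), ?_, fun G' hG' => ?_⟩
    · refine Finset.card_image_le.trans ?_
      rw [Finset.card_univ, Fintype.card_fin]
    · refine ρ.sent_of_word G' G (funext fun i => ?_)
      exact (hG' _ (Finset.mem_image_of_mem _ (Finset.mem_univ i))).2 rfl

end Lists

end Pool.Agent.Results.MP_2b48c2_lc.ModularReductions
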