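import Pool.Agent.helper51.MC.Defs

/-!
# No monotone ept-reduction from `p-CLIQUE` to `p-MC(Σ₁)`

Every reduction from the `k`-clique problem on graphs with `n` vertices to model checking of
`Σ₁`-sentences which is computed by a monotone circuit with at most `2^{O(k)} n^{O(1)}` gates has to
put out a sentence of length `Ω(min(k, log n)²)`, for all `n` and `k` with `k ≤ ε (log n)²`.  In
particular no ept-reduction from `p-CLIQUE` to `p-MC(Σ₁)` is computed by monotone circuits.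
-/

set_option autoImplicit false

namespace Pool.Agent.Results.MP_2b48c2_lc.MonotoneReductions

open Pool.Agent.helper51.MC

theorem exists_large (C : ℕ) : ∃ h₀ : ℕ, ∀ h : ℕ, h₀ ≤ h → C * h ^ 10 ≤ 2 ^ h := by
  have h1 := tendsto_pow_const_div_const_pow_of_one_lt 10 (r := (2:ℝ)) (by norm_num)
  have h2 : ∀ᶠ n : ℕ in Filter.atTop, ((n : ℝ) ^ 10 / 2 ^ n) < 1 / ((C : ℝ) + 1) :=
    h1.eventually_lt_const (by positivity)
  obtain ⟨h₀, hh⟩ := Filter.eventually_atTop.1 h2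
  refine ⟨h₀, fun h hle => ?_⟩
  have h3 := hh h hle
  rw [div_lt_div_iff₀ (by positivity) (by positivity)] at h3
  have h4 : (C : ℝ) * (h : ℝ) ^ 10 ≤ 2 ^ h := by
    have h5 : (0:ℝ) ≤ (h : ℝ) ^ 10 := by positivity
    nlinarith
  exact_mod_cast h4

/-- The quantitative form. -/
theorem main (c : ℕ) : ∃ s K₀ : ℕ, ∀ n k : ℕ, K₀ ≤ k → s * k ≤ Nat.log 2 n ^ 2 →
    ∀ S ℓ : ℕ, S ≤ 2 ^ (c * (k + Nat.log 2 n)) → Nonempty (MonotoneReduction n k S ℓ) →
    (min k (Nat.log 2 n)) ^ 2 ≤ s * ℓ := by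
  obtain ⟨h₀, hh₀⟩ := exists_large (4 * (2 * c + 1) ^ 2 * 3 ^ 10)
  set A := 8 * c + 8 with hA
  refine ⟨16 * A ^ 2, 8 * A ^ 2 + (2 * h₀ + 2) ^ 2 + 3, ?_⟩
  intro n k hk hkL S ℓ hS hρ
  by_contra hcon
  push Not at hcon
  set L := Nat.log 2 n with hL
  have hApos : 0 < A := by omega
  have hA2 : 0 < A ^ 2 := by positivity
  have hk1 : 3 ≤ k := by omega
  have hkL2 : k ≤ L ^ 2 := by
    calc k = 1 * k := (one_mul k).symm
      _ ≤ 16 * A ^ 2 * k := Nat.mul_le_mul_right k (by omega)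
      _ ≤ L ^ 2 := hkL
  have hLbig : 2 * h₀ + 2 ≤ L := by
    have h1 : (2 * h₀ + 2) ^ 2 ≤ L ^ 2 := by omega
    exact (Nat.pow_le_pow_iff_left (by norm_num)).1 h1
  set h := L / 2 with hh
  have hh1 : h₀ + 1 ≤ h := by omega
  have hh2 : L ≤ 3 * h := by omega
  have hh3 : L ≤ 4 * h := by omega
  set q := k / L + 1 with hq
  set a := A * q with ha
  set b := c * (k + L) + k ^ 2 with hb
  have hLpos : 0 < L := by omega
  have hqL1 : k ≤ L * q := by
    rw [hq, mul_add, mul_one]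
    have := Nat.div_add_mod k L
    have := Nat.mod_lt k hLpos
    omega
  have hq1 : 1 ≤ q := by rw [hq]; exact Nat.le_add_left 1 _
  have hqL2 : L ≤ L * q := Nat.le_mul_of_pos_right L hq1
  have hqL3 : L * q ≤ k + L := by
    rw [hq, mul_add, mul_one]
    have := Nat.mul_div_le k L
    omega
  -- the size of `a`
  have ha1 : 2 ≤ a := by
    rw [ha]
    nlinarith
  have hamin : a * min k L ≤ 2 * A * k := by
    rcases le_total k L with hle | hle
    · rw [min_eq_left hle]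
      have h1 : q ≤ 2 := by
        rw [hq]
        have : k / L ≤ 1 := by
          refine Nat.div_le_of_le_mul ?_
          omega
        omega
      rw [ha]
      have h2 : A * q ≤ 2 * A := by nlinarith
      exact Nat.mul_le_mul_right k h2
    · rw [min_eq_right hle, ha]
      calc A * q * L = A * (L * q) := by ring
        _ ≤ A * (k + k) := Nat.mul_le_mul_left A (hqL3.trans (by omega))
        _ = 2 * A * k := by ring
  have ha2 : 2 * a ^ 2 ≤ k - 1 := by
    rcases le_total k L with hle | hle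
    · have h1 : q ≤ 2 := by
        rw [hq]
        have : k / L ≤ 1 := by
          refine Nat.div_le_of_le_mul ?_
          omega
        omega
      have h2 : a ≤ 2 * A := by rw [ha]; nlinarith
      have h3 : a ^ 2 ≤ (2 * A) ^ 2 := Nat.pow_le_pow_left h2 2
      have h4 : (2 * A) ^ 2 = 4 * A ^ 2 := by ring
      omega
    · rw [min_eq_right hle] at hamin
      have h1 : (a * L) ^ 2 ≤ (2 * A * k) ^ 2 := Nat.pow_le_pow_left hamin 2
      have h2 : a ^ 2 * (16 * A ^ 2 * k) ≤ a ^ 2 * L ^ 2 := Nat.mul_le_mul_left _ hkL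
      have h3 : (4 * A ^ 2 * k) * (4 * a ^ 2) ≤ (4 * A ^ 2 * k) * k := by
        calc (4 * A ^ 2 * k) * (4 * a ^ 2) = a ^ 2 * (16 * A ^ 2 * k) := by ring
          _ ≤ a ^ 2 * L ^ 2 := h2
          _ = (a * L) ^ 2 := by ring
          _ ≤ (2 * A * k) ^ 2 := h1
          _ = (4 * A ^ 2 * k) * k := by ring
      have h4 : 4 * a ^ 2 ≤ k := Nat.le_of_mul_le_mul_left h3 (by positivity)
      omega
  have hbpos : 1 ≤ b := by
    have : 0 < k ^ 2 := by positivity
    omega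
  have hn : 2 ^ L ≤ n := by
    apply Nat.pow_log_le_self
    intro h0
    rw [hL, h0] at hLpos
    simp at hLpos
  -- the size of `b`
  have hbL : b ≤ (2 * c + 1) * L ^ 4 := by
    have h1 : L ≤ L ^ 4 := Nat.le_self_pow (by norm_num) L
    have h2 : L ^ 2 ≤ L ^ 4 := Nat.pow_le_pow_right hLpos (by norm_num)
    have h3 : k ^ 2 ≤ L ^ 4 := by
      calc k ^ 2 ≤ (L ^ 2) ^ 2 := Nat.pow_le_pow_left hkL2 2
        _ = L ^ 4 := by ring
    calc b = c * (k + L) + k ^ 2 := rfl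
      _ ≤ c * (L ^ 4 + L ^ 4) + L ^ 4 := by
        refine Nat.add_le_add (Nat.mul_le_mul_left c ?_) h3
        omega
      _ = (2 * c + 1) * L ^ 4 := by ring
  have hroom : (2 * b) ^ 2 * 2 ^ h * k ≤ n := by
    refine le_trans ?_ hn
    have h1 : (2 * b) ^ 2 * k ≤ 2 ^ h := by
      calc (2 * b) ^ 2 * k ≤ (2 * ((2 * c + 1) * L ^ 4)) ^ 2 * L ^ 2 :=
            Nat.mul_le_mul (Nat.pow_le_pow_left (Nat.mul_le_mul_left 2 hbL) 2) hkL2
        _ = 4 * (2 * c + 1) ^ 2 * L ^ 10 := by ring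
        _ ≤ 4 * (2 * c + 1) ^ 2 * (3 * h) ^ 10 :=
            Nat.mul_le_mul_left _ (Nat.pow_le_pow_left hh2 10)
        _ = 4 * (2 * c + 1) ^ 2 * 3 ^ 10 * h ^ 10 := by rw [mul_pow]; ring
        _ ≤ 2 ^ h := hh₀ h (by omega)
    calc (2 * b) ^ 2 * 2 ^ h * k = ((2 * b) ^ 2 * k) * 2 ^ h := by ring
      _ ≤ 2 ^ h * 2 ^ h := Nat.mul_le_mul_right _ h1
      _ = 2 ^ (h + h) := (pow_add _ _ _).symm
      _ ≤ 2 ^ L := Nat.pow_le_pow_right (by norm_num) (by omega)
  have hdiv : (2 * b) ^ 2 * 2 ^ h ≤ n / k := (Nat.le_div_iff_mul_le (by omega)).2 hroom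
  refine no_reduction (n := n) (k := k) (S := S) (ℓ := ℓ) (a := a) (b := b) (q := n / k)
    ha1 hbpos hk1 (Nat.mul_div_le n k) ?_ ?_ ?_ hρ
  · -- the number of pairs
    have h1 : 4 * A ^ 2 * (4 * (ℓ * a ^ 2)) < 4 * A ^ 2 * k ^ 2 := by
      calc 4 * A ^ 2 * (4 * (ℓ * a ^ 2)) = (16 * A ^ 2 * ℓ) * a ^ 2 := by ring
        _ < (min k L) ^ 2 * a ^ 2 := Nat.mul_lt_mul_of_pos_right hcon (by positivity)
        _ = (a * min k L) ^ 2 := by ring
        _ ≤ (2 * A * k) ^ 2 := Nat.pow_le_pow_left hamin 2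
        _ = 4 * A ^ 2 * k ^ 2 := by ring
    have h2 : 4 * (ℓ * a ^ 2) < k ^ 2 := lt_of_mul_lt_mul_left h1 (by positivity)
    have h3 : k ^ 2 ≤ 4 * (k * (k - 1)) := by
      obtain ⟨j, rfl⟩ : ∃ j, k = j + 1 := ⟨k - 1, by omega⟩
      have : j + 1 - 1 = j := rfl
      rw [this]
      have : 2 ≤ j := by omega
      nlinarith
    omega
  · -- the positive error
    have h1 : c * (k + L) < h * (a + 1) := by
      have h2 : 8 * (c * (k + L)) < 8 * (h * (a + 1)) := by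
        calc 8 * (c * (k + L)) < (8 * c + 8) * (k + L) := by
              have : 0 < 8 * (k + L) := by omega
              nlinarith
          _ ≤ A * (2 * (L * q)) := Nat.mul_le_mul_left A (by omega)
          _ = 2 * L * (A * q) := by ring
          _ ≤ 2 * (4 * h) * (a + 1) := by
              refine Nat.mul_le_mul (Nat.mul_le_mul_left 2 hh3) (by omega)
          _ = 8 * (h * (a + 1)) := by ring
      omega
    have h2 : 0 < ((2 * b) ^ 2) ^ (a + 1) := by positivity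
    calc S * ((2 * b) ^ 2) ^ (a + 1) ≤ 2 ^ (c * (k + L)) * ((2 * b) ^ 2) ^ (a + 1) :=
          Nat.mul_le_mul_right _ hS
      _ < 2 ^ (h * (a + 1)) * ((2 * b) ^ 2) ^ (a + 1) :=
          Nat.mul_lt_mul_of_pos_right (Nat.pow_lt_pow_right (by norm_num) h1) h2
      _ = ((2 * b) ^ 2 * 2 ^ h) ^ (a + 1) := by
          rw [mul_pow ((2 * b) ^ 2) (2 ^ h) (a + 1), ← pow_mul 2 h (a + 1), mul_comm]
      _ ≤ (n / k) ^ (a + 1) := Nat.pow_le_pow_left hdiv _
  · -- the negative error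
    have h1 : (k - 1) ^ k ≤ 2 ^ (k ^ 2) := by
      have h2 : k - 1 ≤ 2 ^ k := (Nat.sub_le k 1).trans Nat.lt_two_pow_self.le
      calc (k - 1) ^ k ≤ (2 ^ k) ^ k := Nat.pow_le_pow_left h2 k
        _ = 2 ^ (k ^ 2) := by rw [← pow_mul]; congr 1; ring
    have h2 : 0 < (a ^ 2) ^ (b + 1) := by positivity
    calc S * (a ^ 2) ^ (b + 1) * (k - 1) ^ k
        ≤ 2 ^ (c * (k + L)) * (a ^ 2) ^ (b + 1) * 2 ^ (k ^ 2) :=
          Nat.mul_le_mul (Nat.mul_le_mul_right _ hS) h1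
      _ = 2 ^ b * (a ^ 2) ^ (b + 1) := by rw [hb, pow_add]; ring
      _ < 2 ^ (b + 1) * (a ^ 2) ^ (b + 1) :=
          Nat.mul_lt_mul_of_pos_right (Nat.pow_lt_pow_right (by norm_num) (by omega)) h2
      _ = (2 * a ^ 2) ^ (b + 1) := (mul_pow _ _ _).symm
      _ ≤ (k - 1) ^ (b + 1) := Nat.pow_le_pow_left ha2 _

/-- There is no ept-reduction from `p-CLIQUE` to `p-MC(Σ₁)` computed by monotone circuits of size
`2^{O(k)} * n^{O(1)}`: its sentences would have length `O(k + log n)`. -/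
theorem no_ept_reduction : ¬ ∃ c : ℕ, ∀ n k : ℕ, Nonempty
    (MonotoneReduction n k (2 ^ (c * (k + Nat.log 2 n + 1)))
      (c * (k + Nat.log 2 n + 1))) := by
  rintro ⟨c, h⟩
  obtain ⟨s, K₀, hmain⟩ := main (2 * c)
  -- `k = log n`
  set k := K₀ + s + 3 * s * c + 1 with hk
  have hlog : Nat.log 2 (2 ^ k) = k := Nat.log_pow (by norm_num) k
  have h1 := hmain (2 ^ k) k (by omega) ?_ _ _ ?_ (h (2 ^ k) k)
  · rw [hlog, min_self] at h1
    have h2 : s * (c * (k + k + 1)) ≤ 3 * s * c * k := by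
      have : k + k + 1 ≤ 3 * k := by omega
      calc s * (c * (k + k + 1)) ≤ s * (c * (3 * k)) := by gcongr
        _ = 3 * s * c * k := by ring
    have h3 : k * k ≤ 3 * s * c * k := by
      calc k * k = k ^ 2 := by ring
        _ ≤ _ := h1
        _ ≤ _ := h2
    have h4 : k ≤ 3 * s * c := Nat.le_of_mul_le_mul_right h3 (by omega)
    omega
  · rw [hlog, pow_two]
    exact Nat.mul_le_mul_right k (by omega)
  · rw [hlog]
    refine Nat.pow_le_pow_right (by norm_num) ?_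
    have h5 : k + k + 1 ≤ 2 * (k + k) := by omega
    calc c * (k + k + 1) ≤ c * (2 * (k + k)) := Nat.mul_le_mul_left c h5
      _ = 2 * c * (k + k) := by ring

/-- **Theorem.** Fix `c`. There are `ε > 0` and `K₀` such that for all `n` and `k` with
`K₀ ≤ k ≤ ε (log n)²`, every reduction from the `k`-clique problem on graphs with `n` vertices to
model checking of `Σ₁`-sentences, computed by a monotone circuit with at most `2^{c (k + log n)}`
gates, needs a sentence of length at least `ε * min(k, log n)²`. -/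
theorem result (c : ℕ) : ∃ ε : ℝ, 0 < ε ∧ ∃ K₀ : ℕ, ∀ n k : ℕ,
    K₀ ≤ k → (k : ℝ) ≤ ε * (Nat.log 2 n : ℝ) ^ 2 → ∀ S ℓ : ℕ,
    S ≤ 2 ^ (c * (k + Nat.log 2 n)) → Nonempty (MonotoneReduction n k S ℓ) →
    ε * ((min k (Nat.log 2 n) : ℕ) : ℝ) ^ 2 ≤ ℓ := by
  obtain ⟨s, K₀, h⟩ := main c
  have hs : (0:ℝ) ≤ s := Nat.cast_nonneg s
  refine ⟨1 / ((s : ℝ) + 1), by positivity, K₀, ?_⟩
  intro n k hk hkL S ℓ hS hρ
  rw [one_div, le_inv_mul_iff₀ (by positivity)] at hkL
  have h0 : s * k ≤ Nat.log 2 n ^ 2 := by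
    have h1 : (s : ℝ) * k ≤ (Nat.log 2 n : ℝ) ^ 2 := by
      have : (0:ℝ) ≤ k := Nat.cast_nonneg k
      nlinarith
    exact_mod_cast h1
  have h1 := h n k hk h0 S ℓ hS hρ
  have h2 : ((min k (Nat.log 2 n) : ℕ) : ℝ) ^ 2 ≤ s * ℓ := by exact_mod_cast h1
  have h3 : (0:ℝ) ≤ ℓ := Nat.cast_nonneg ℓ
  rw [one_div, inv_mul_le_iff₀ (by positivity)]
  nlinarith

end Pool.Agent.Results.MP_2b48c2_lc.MonotoneReductions
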